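import Pool.Agent.H76.Alt.Beta

/-!
# Extraction for `ν` (E2, E4)
-/

namespace H8Alt.Super.G

open H8Alt.Super

/-- `ν`, letters `z, z, z, a, b, c, d = 0, ..., 6` -/
def gN : List (ℤ × RT) := [
  (1, .j (.c (.l 3) (.l 4)) (.c (.l 0) (.c (.l 1) (.a (.l 5) (.l 6) (.l 2))))),
  (1, .j (.c (.l 5) (.l 6)) (.c (.l 0) (.c (.l 1) (.a (.l 3) (.l 4) (.l 2))))),
  (-1, .j (.c (.l 4) (.a (.l 5) (.l 6) (.l 2))) (.c (.l 0) (.c (.l 1) (.l 3)))),
  (1, .j (.c (.l 3) (.a (.l 5) (.l 6) (.l 2))) (.c (.l 0) (.c (.l 1) (.l 4)))),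
  (-1, .j (.c (.l 6) (.a (.l 3) (.l 4) (.l 2))) (.c (.l 0) (.c (.l 1) (.l 5)))),
  (1, .j (.c (.l 5) (.a (.l 3) (.l 4) (.l 2))) (.c (.l 0) (.c (.l 1) (.l 6))))]

/-- the target for `ν`: letters `z, z, z, a, b, c, d, y, w = 0, ..., 8` -/
def nuT : List (ℤ × RT) := deOp 7 8 gN

/-- parities for `ν` -/
def pN (i : ℕ) : Bool := decide (3 ≤ i)

/-- the engine statement for `ν` -/
def EngN {S : Type*} [AddCommGroup S] (M : Sem S) : Prop :=
  ∀ x : ℕ → S, (∀ i, x i ∈ M.H (pN i)) → x 1 = x 0 → x 2 = x 0 → x 4 = x 3 → x 6 = x 5 →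
    x 8 = x 7 → M.evS pN x nuT = 0

theorem multi_nuT : Multi [0, 1, 2, 3, 4, 5, 6, 7, 8] nuT := by
  unfold Multi nuT gN
  simp [deOp, RT.leaves, Tr.leaves, srt, ins]

/-- index of the letter `k` with choice `j` -/
def pi6 (k : Fin 6) (j : Fin 2) : Fin 6 := ⟨2 * (k / 2) + j, by omega⟩

/-- coefficients -/
def c6 (j0 j1 j2 j3 j4 j5 : Fin 2) : ℤ :=
  cf (ba {pi6 0 j0} * (ba {pi6 1 j1} * (ba {pi6 2 j2} * (ba {pi6 3 j3} *
    (ba {pi6 4 j4} * ba {pi6 5 j5})))))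

theorem c6_ne : ∀ j0 j1 j2 j3 j4 j5, c6 j0 j1 j2 j3 j4 j5 ≠ 0 → j0 ≠ j1 ∧ j2 ≠ j3 ∧ j4 ≠ j5 := by
  decide +kernel

theorem c6_sum : ∑ r : Fin 6 → Fin 2, c6 (r 0) (r 1) (r 2) (r 3) (r 4) (r 5) ^ 2 = 8 := by
  decide +kernel

theorem c6_0 : c6 0 1 0 1 0 1 = 1 := by decide +kernel
theorem c6_1 : c6 1 0 0 1 0 1 = -1 := by decide +kernel
theorem c6_2 : c6 0 1 1 0 0 1 = -1 := by decide +kernel
theorem c6_3 : c6 0 1 0 1 1 0 = -1 := by decide +kernel
theorem c6_4 : c6 1 0 1 0 0 1 = 1 := by decide +kernel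
theorem c6_5 : c6 1 0 0 1 1 0 = 1 := by decide +kernel
theorem c6_6 : c6 0 1 1 0 1 0 = 1 := by decide +kernel
theorem c6_7 : c6 1 0 1 0 1 0 = -1 := by decide +kernel

variable {A : Type*} [NonUnitalNonAssocRing A] [IsAlternative A]

theorem nu_swap12 (z a b c d : A) : nu z b a c d = - nu z a b c d := by
  simp only [nu, jd, cm_swap a b, as_swap12 a b z, cm_neg2]
  noncomm_ring

theorem nu_swap34 (z a b c d : A) : nu z a b d c = - nu z a b c d := by
  simp only [nu, jd, cm_swap c d, as_swap12 c d z, cm_neg2]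
  noncomm_ring

/-- the value -/
def vN (z : A) (a : Fin 6 → A) : A := as (nu z (a 0) (a 1) (a 2) (a 3)) (a 4) (a 5)

theorem c6_vN (z : A) (a : Fin 6 → A) (j0 j1 j2 j3 j4 j5 : Fin 2) :
    c6 j0 j1 j2 j3 j4 j5 • as (nu z (a (pi6 0 j0)) (a (pi6 1 j1)) (a (pi6 2 j2)) (a (pi6 3 j3)))
      (a (pi6 4 j4)) (a (pi6 5 j5)) = c6 j0 j1 j2 j3 j4 j5 ^ 2 • vN z a := by
  by_cases h : c6 j0 j1 j2 j3 j4 j5 = 0
  · rw [h]; simp
  · obtain ⟨h1, h2, h3⟩ := c6_ne _ _ _ _ _ _ h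
    have e00 : pi6 0 0 = 0 := rfl
    have e01 : pi6 0 1 = 1 := rfl
    have e10 : pi6 1 0 = 0 := rfl
    have e11 : pi6 1 1 = 1 := rfl
    have e20 : pi6 2 0 = 2 := rfl
    have e21 : pi6 2 1 = 3 := rfl
    have e30 : pi6 3 0 = 2 := rfl
    have e31 : pi6 3 1 = 3 := rfl
    have e40 : pi6 4 0 = 4 := rfl
    have e41 : pi6 4 1 = 5 := rfl
    have e50 : pi6 5 0 = 4 := rfl
    have e51 : pi6 5 1 = 5 := rfl
    have s1 : nu z (a 1) (a 0) (a 2) (a 3) = - nu z (a 0) (a 1) (a 2) (a 3) := nu_swap12 _ _ _ _ _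
    have s2 : nu z (a 0) (a 1) (a 3) (a 2) = - nu z (a 0) (a 1) (a 2) (a 3) := nu_swap34 _ _ _ _ _
    have s3 : nu z (a 1) (a 0) (a 3) (a 2) = nu z (a 0) (a 1) (a 2) (a 3) := by
      rw [nu_swap12, nu_swap34, neg_neg]
    have s4 : ∀ u : A, as u (a 5) (a 4) = - as u (a 4) (a 5) := fun u => as_swap23 _ _ _
    obtain ⟨rfl, rfl⟩ | ⟨rfl, rfl⟩ : (j0 = 0 ∧ j1 = 1) ∨ (j0 = 1 ∧ j1 = 0) := by omega
    all_goals
      obtain ⟨rfl, rfl⟩ | ⟨rfl, rfl⟩ : (j2 = 0 ∧ j3 = 1) ∨ (j2 = 1 ∧ j3 = 0) := by omega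
    all_goals
      obtain ⟨rfl, rfl⟩ | ⟨rfl, rfl⟩ : (j4 = 0 ∧ j5 = 1) ∨ (j4 = 1 ∧ j5 = 0) := by omega
    all_goals
      simp only [e00, e01, e10, e11, e20, e21, e30, e31, e40, e41, e50, e51, s1, s2, s3, s4,
        as_neg1, c6_0, c6_1, c6_2, c6_3, c6_4, c6_5, c6_6, c6_7, vN]
      simp

/-- (E4) the engine statement for `ν` gives `8 (ν, y, w) = 0`. -/
theorem nu_extract (H : EngN (semA A 6)) (z : A) (a : Fin 6 → A) : (8 : ℤ) • vN z a = 0 := by
  set a0 : ℕ → A := fun i => if i < 3 then z else 0 with ha0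
  have hx := H (xOf (fun i => pur (1 : Gr 6) (a0 i))
      fun k : Fin 6 => ∑ j, pur (ba {pi6 k j}) (a (pi6 k j)))
    (by
      intro i
      change _ ∈ HH 6 A (pN i)
      unfold xOf
      by_cases hi : 3 ≤ i ∧ i < 3 + 6
      · rw [dif_pos hi]
        have : pN i = true := by
          simp only [pN, decide_eq_true_eq]
          omega
        rw [this]
        exact sum_mem fun j _ => pur_mem (par_single _) _
      · rw [dif_neg hi]
        by_cases hi' : i < 3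
        · have : pN i = false := by
            simp only [pN, decide_eq_false_iff_not]
            omega
          rw [this]
          exact pur_mem par_empty _
        · simp only [ha0, if_neg hi', pur_zero]
          exact AddSubgroup.zero_mem _)
    (by simp [xOf, ha0]) (by simp [xOf, ha0]) (by simp [xOf, pi6]) (by simp [xOf, pi6])
    (by simp [xOf, pi6])
  have hsum := extract (m := 6) (ι := Fin 2) pN (L := [0, 1, 2, 3, 4, 5, 6, 7, 8]) (by decide)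
    multi_nuT (fun k => by fin_cases k <;> simp) (fun _ => 1) a0 (fun k j => ba {pi6 k j})
    (fun k j => a (pi6 k j)) (fun i hi h => by
      have : pN i = false := by
        simp only [pN, decide_eq_false_iff_not]
        simp at hi
        omega
      rw [this]
      rfl) (fun k j => by
      have : pN (3 + k) = true := by
        simp only [pN, decide_eq_true_eq]
        omega
      rw [this]
      exact par_single _) hx
  have hterm : ∀ r : Fin 6 → Fin 2,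
      cf ((([0, 1, 2, 3, 4, 5, 6, 7, 8] : List ℕ).map
        (xOf (fun _ => (1 : Gr 6)) fun k : Fin 6 => ba {pi6 k (r k)})).prod) •
        evalS (xOf a0 fun k : Fin 6 => a (pi6 k (r k))) nuT =
      c6 (r 0) (r 1) (r 2) (r 3) (r 4) (r 5) ^ 2 • vN z a := by
    intro r
    have h1 : (([0, 1, 2, 3, 4, 5, 6, 7, 8] : List ℕ).map
        (xOf (fun _ => (1 : Gr 6)) fun k : Fin 6 => ba {pi6 k (r k)})).prod =
        ba {pi6 0 (r 0)} * (ba {pi6 1 (r 1)} * (ba {pi6 2 (r 2)} * (ba {pi6 3 (r 3)} *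
    (ba {pi6 4 (r 4)} * ba {pi6 5 (r 5)})))) := by
      simp [xOf]
    have h2 : evalS (xOf a0 fun k : Fin 6 => a (pi6 k (r k))) nuT =
        as (nu z (a (pi6 0 (r 0))) (a (pi6 1 (r 1))) (a (pi6 2 (r 2))) (a (pi6 3 (r 3))))
          (a (pi6 4 (r 4))) (a (pi6 5 (r 5))) := by
      rw [nuT, eval_deOp _ _ _ _ (by
        intro t ht
        simp only [gN, List.mem_cons, List.not_mem_nil, or_false] at ht
        rcases ht with rfl | rfl | rfl | rfl | rfl | rfl <;> exact ⟨_, _, rfl⟩)]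
      congr 1
      simp only [gN, evalS, RT.eval, Tr.eval, xOf, ha0, nu, jd]
      simp
      abel
    rw [h1, h2]
    exact c6_vN z a _ _ _ _ _ _
  rw [Finset.sum_congr rfl fun r _ => hterm r, ← Finset.sum_smul, c6_sum] at hsum
  exact hsum

end H8Alt.Super.G
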