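import Pool.Agent.H76.Alt.Beta
import Pool.Agent.H76.Alt.NuX

/-!
# From the engine statements to the two identities
-/

namespace H8Alt.Super.G

theorem fn_tf {n : ℕ} {Q : Type*} [AddCommGroup Q] (N : ℤ) (h : ∀ x : Q, N • x = 0 → x = 0)
    (f : Finset (Fin n) → Q) (hf : N • f = 0) : f = 0 := by
  funext T
  exact h _ (by simpa using congrFun hf T)

theorem fn_tors {n : ℕ} {Q : Type*} [AddCommGroup Q] (N : ℤ) (h : ∀ x : Q, N • x = 0)
    (f : Finset (Fin n) → Q) : N • f = 0 := by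
  funext T
  simpa using h (f T)

/-- The engine over rings without 2- and 3-torsion and extraction. -/
theorem bt_of_eng {Q : Type*} [NonUnitalNonAssocRing Q] [IsAlternative Q]
    (h2 : ∀ x : Q, (2 : ℤ) • x = 0 → x = 0) (h3 : ∀ x : Q, (3 : ℤ) • x = 0 → x = 0)
    (H : EngB (semA Q 4)) (z a b c d e : Q) :
    cm (bt z a b c d) e = 0 := by
  have h : (48 : ℤ) • cm e (bt z a b c d) = 0 := beta_extract H z e ![a, b, c, d]
  have h1 : (2 : ℤ) • ((2 : ℤ) • ((2 : ℤ) • ((2 : ℤ) • ((3 : ℤ) • cm e (bt z a b c d))))) = 0 := by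
    have h5 : (2 : ℤ) • ((2 : ℤ) • ((2 : ℤ) • ((2 : ℤ) • ((3 : ℤ) • cm e (bt z a b c d))))) =
        (48 : ℤ) • cm e (bt z a b c d) := by
      module
    rw [h5, h]
  have h4 := h3 _ (h2 _ (h2 _ (h2 _ (h2 _ h1))))
  rw [cm_swap e, h4, neg_zero]

/-- The engine mod 3 and extraction. -/
theorem nu_of_eng {Q : Type*} [NonUnitalNonAssocRing Q] [IsAlternative Q]
    (hQ : ∀ x : Q, (3 : ℤ) • x = 0) (H : EngN (semA Q 6)) (z a b c d y w : Q) :
    as (nu z a b c d) y w = 0 := by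
  have h : (8 : ℤ) • as (nu z a b c d) y w = 0 := nu_extract H z ![a, b, c, d, y, w]
  have h1 := hQ (as (nu z a b c d) y w)
  linear_combination (norm := module) (3 : ℤ) • h1 - h

end H8Alt.Super.G
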