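import Pool.Agent.H76.Alt.Extract
import Pool.Agent.H8.Alt.Super.Schemas
import Pool.Agent.H8.Alt.ZCalc
import Pool.Agent.H8.Alt.Nu
import Mathlib.LinearAlgebra.Alternating.Basic
import Mathlib.GroupTheory.Perm.Sign
import Mathlib.Data.Fin.VecNotation

/-!
# Extraction for `β` (E1, E3)
-/

namespace H8Alt.Super.G

open H8Alt.Super

section identities

variable {A : Type*} [NonUnitalNonAssocRing A] [IsAlternative A]

theorem cm_jd (y u v : A) : cm y (u * v + v * u) =
    (cm y u * v + v * cm y u) + (u * cm y v + cm y v * u) := by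
  have h1 := cm_mul_left u v y
  have h2 := cm_mul_left v u y
  have h3 := as_swap12 u v y
  rw [h3] at h2
  rw [cm_add2, cm_swap (u * v) y, cm_swap (v * u) y, h1, h2, cm_swap u y, cm_swap v y]
  simp only [neg_mul, mul_neg]
  module

theorem as_jd (y w u v : A) : as (u * v + v * u) y w =
    (u * as v y w + as v y w * u) + (as u y w * v + v * as u y w) := by
  have h1 := as_mul_left u v y w
  have h2 := as_mul_left v u y w
  have h3 := kf_swap12 u v y w
  rw [h3] at h2
  rw [as_add1, h1, h2]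
  abel

/-- all roots are Jordan products -/
def AllJ (s : List (ℤ × RT)) : Prop := ∀ t ∈ s, ∃ u v, t.2 = RT.j u v

omit [IsAlternative A] in
theorem cm_zsmul2 (y : A) (k : ℤ) (u : A) : cm y (k • u) = k • cm y u := by
  simp only [cm, mul_smul_comm, smul_mul_assoc, smul_sub]

omit [IsAlternative A] in
theorem as_zsmul1 (k : ℤ) (u y w : A) : as (k • u) y w = k • as u y w := by
  simp only [as_def, smul_mul_assoc, smul_sub]

theorem eval_adOp (x : ℕ → A) (y : ℕ) (s : List (ℤ × RT)) (h : AllJ s) :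
    evalS x (adOp y s) = cm (x y) (evalS x s) := by
  induction s with
  | nil => simp [adOp, evalS]
  | cons t s ih =>
    obtain ⟨k, r⟩ := t
    obtain ⟨u, v, rfl⟩ := h _ List.mem_cons_self
    have ih' := ih fun t' ht' => h t' (List.mem_cons_of_mem _ ht')
    simp only [adOp, evalS, RT.eval, Tr.eval]
    rw [ih', cm_add2, cm_zsmul2, cm_jd]
    module

theorem eval_deOp (x : ℕ → A) (y w : ℕ) (s : List (ℤ × RT)) (h : AllJ s) :
    evalS x (deOp y w s) = as (evalS x s) (x y) (x w) := by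
  induction s with
  | nil => simp [deOp, evalS]
  | cons t s ih =>
    obtain ⟨k, r⟩ := t
    obtain ⟨u, v, rfl⟩ := h _ List.mem_cons_self
    have ih' := ih fun t' ht' => h t' (List.mem_cons_of_mem _ ht')
    simp only [deOp, evalS, RT.eval, Tr.eval]
    rw [ih', as_add1, as_zsmul1, as_jd]
    module

end identities

/-- `q ∘ D q'`, letters `z, z, z, a, b, c, d` -/
def gB : List (ℤ × RT) := [(1, .j (.a (.l 3) (.l 4) (.l 0)) (.c (.l 1) (.a (.l 5) (.l 6) (.l 2))))]

/-- the target for `β`: letters `z, z, z, a, b, c, d, e` -/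
def betaT : List (ℤ × RT) := adOp 7 gB

/-- parities for `β` -/
def pB (i : ℕ) : Bool := decide (3 ≤ i ∧ i < 7)

/-- the engine statement for `β` -/
def EngB {S : Type*} [AddCommGroup S] (M : Sem S) : Prop :=
  ∀ x : ℕ → S, (∀ i, x i ∈ M.H (pB i)) → x 1 = x 0 → x 2 = x 0 → x 4 = x 3 → x 5 = x 3 →
    x 6 = x 3 → M.evS pB x betaT = 0

theorem multi_betaT : Multi [0, 1, 2, 3, 4, 5, 6, 7] betaT := by
  unfold Multi betaT gB
  simp [adOp, RT.leaves, Tr.leaves, srt, ins]

/-- coefficients -/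
def c4 (i j k l : Fin 4) : ℤ := cf (ba {i} * (ba {j} * (ba {k} * ba {l})))

theorem c4_swap : ∀ i j k l, c4 k l i j = c4 i j k l := by decide +kernel

theorem c4_ne : ∀ i j k l, c4 i j k l ≠ 0 → i ≠ j ∧ i ≠ k ∧ i ≠ l ∧ j ≠ k ∧ j ≠ l ∧ k ≠ l := by
  decide +kernel

theorem c4_sign : ∀ σ : Equiv.Perm (Fin 4),
    c4 (σ 0) (σ 1) (σ 2) (σ 3) = (Equiv.Perm.sign σ : ℤ) := by decide +kernel

theorem c4_sum : ∑ r : Fin 4 → Fin 4, c4 (r 0) (r 1) (r 2) (r 3) ^ 2 = 24 := by decide +kernel

variable {A : Type*} [NonUnitalNonAssocRing A] [IsAlternative A]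

theorem bt_zero13 (z a b d : A) : bt z a b a d = 0 := by
  rw [bt_swap23 z a a b d, bt_self12, neg_zero]
theorem bt_zero24 (z a b c : A) : bt z a b c b = 0 := by
  rw [bt_swap23 z a c b b, bt_self34, neg_zero]
theorem bt_zero14 (z a b c : A) : bt z a b c a = 0 := by
  rw [bt_swap34 z a b a c, bt_zero13, neg_zero]

/-- `[e, β(z; a, b, c, d)]` as an alternating map -/
def bA (z e : A) : A [⋀^Fin 4]→ₗ[ℤ] A where
  toFun v := cm e (bt z (v 0) (v 1) (v 2) (v 3))
  map_update_add' := by
    intro inst v i x y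
    have hinst : inst = instDecidableEqFin 4 := Subsingleton.elim _ _
    subst hinst
    rw [← cm_add2]
    congr 1
    fin_cases i <;>
      simp [bt, as_add1, as_add2, mul_add, add_mul, Function.update] <;> abel
  map_update_smul' := by
    intro inst v i k x
    have hinst : inst = instDecidableEqFin 4 := Subsingleton.elim _ _
    subst hinst
    rw [← cm_zsmul2]
    congr 1
    have h1 : ∀ u w : A, as (k • u) w z = k • as u w z := fun u w => as_zsmul1 k u w z
    have h2 : ∀ u w : A, as u (k • w) z = k • as u w z := fun u w => by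
      simp only [as_def, smul_mul_assoc, mul_smul_comm, smul_sub]
    fin_cases i <;>
      simp [bt, h1, h2, Function.update, smul_sub, mul_smul_comm, smul_mul_assoc]
  map_eq_zero_of_eq' := by
    intro v i j h hij
    fin_cases i <;> fin_cases j <;> simp at h hij ⊢ <;>
      simp [h, bt_self23, bt_zero13, bt_zero24, bt_zero14]

theorem bA_apply (z e : A) (v : Fin 4 → A) : bA z e v = cm e (bt z (v 0) (v 1) (v 2) (v 3)) := rfl

theorem c4_bA (z e : A) (a : Fin 4 → A) (r : Fin 4 → Fin 4) :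
    c4 (r 0) (r 1) (r 2) (r 3) • bA z e (a ∘ r) = c4 (r 0) (r 1) (r 2) (r 3) ^ 2 • bA z e a := by
  by_cases h : c4 (r 0) (r 1) (r 2) (r 3) = 0
  · rw [h]; simp
  · have h1 := c4_ne _ _ _ _ h
    have hinj : Function.Injective r := by
      intro i j hij
      fin_cases i <;> fin_cases j <;> simp_all
    have hb : Function.Bijective r := Finite.injective_iff_bijective.1 hinj
    set σ : Equiv.Perm (Fin 4) := Equiv.ofBijective r hb with hσ
    have hr : r = σ := rfl
    rw [hr, (bA z e).map_perm, c4_sign σ]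
    rw [Units.smul_def, smul_smul]
    congr 1
    ring

/-- `q ∘ D q'` -/
def gv (z : A) (v : Fin 4 → A) : A :=
  as (v 0) (v 1) z * cm z (as (v 2) (v 3) z) + cm z (as (v 2) (v 3) z) * as (v 0) (v 1) z

/-- exchange of the pairs -/
def tau : Equiv.Perm (Fin 4) := ⟨![2, 3, 0, 1], ![2, 3, 0, 1], by decide, by decide⟩

theorem gv_pair (z : A) (v : Fin 4 → A) :
    gv z v + gv z (v ∘ tau) = (2 : ℤ) • bt z (v 0) (v 1) (v 2) (v 3) := by
  have h1 := bt_eq z (v 0) (v 1) (v 2) (v 3)
  have h2 := bt_eq z (v 2) (v 3) (v 0) (v 1)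
  have h3 := bt_pair z (v 0) (v 1) (v 2) (v 3)
  rw [h3] at h2
  have h4 : as (as (v 2) (v 3) z) (as (v 0) (v 1) z) z =
    - as (as (v 0) (v 1) z) (as (v 2) (v 3) z) z := as_swap12 _ _ _
  rw [h4] at h2
  have e : gv z (v ∘ tau) = as (v 2) (v 3) z * cm z (as (v 0) (v 1) z) +
    cm z (as (v 0) (v 1) z) * as (v 2) (v 3) z := rfl
  rw [e, gv]
  linear_combination (norm := module) -h1 - h2

theorem par_empty {n : ℕ} : par (∅ : Finset (Fin n)) = false := rfl
theorem par_single {n : ℕ} (j : Fin n) : par ({j} : Finset (Fin n)) = true := by simp [par]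

/-- (E3) the engine statement for `β` gives `48 [e, β] = 0`. -/
theorem beta_extract (H : EngB (semA A 4)) (z e : A) (a : Fin 4 → A) :
    (48 : ℤ) • cm e (bt z (a 0) (a 1) (a 2) (a 3)) = 0 := by
  set a0 : ℕ → A := fun i => if i < 3 then z else if i = 7 then e else 0 with ha0
  have hx := H (xOf (fun i => pur (1 : Gr 4) (a0 i)) fun _ : Fin 4 => ∑ j, pur (ba {j}) (a j))
    (by
      intro i
      change _ ∈ HH 4 A (pB i)
      unfold xOf
      by_cases hi : 3 ≤ i ∧ i < 3 + 4
      · rw [dif_pos hi]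
        have : pB i = true := by
          simp only [pB, decide_eq_true_eq]
          omega
        rw [this]
        exact sum_mem fun j _ => pur_mem (par_single j) _
      · rw [dif_neg hi]
        have : pB i = false := by
          simp only [pB, decide_eq_false_iff_not]
          omega
        rw [this]
        exact pur_mem par_empty _)
    (by simp [xOf, ha0]) (by simp [xOf, ha0]) (by simp [xOf]) (by simp [xOf]) (by simp [xOf])
  have hsum := extract (m := 4) (ι := Fin 4) pB (L := [0, 1, 2, 3, 4, 5, 6, 7]) (by decide)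
    multi_betaT (fun k => by fin_cases k <;> simp) (fun _ => 1) a0 (fun _ j => ba {j})
    (fun _ j => a j) (fun i hi h => by
      have : pB i = false := by
        simp only [pB, decide_eq_false_iff_not]
        omega
      rw [this]
      rfl) (fun k j => by
      have : pB (3 + k) = true := by
        simp only [pB, decide_eq_true_eq]
        have := k.2
        omega
      rw [this]
      exact par_single j) hx
  have hterm : ∀ r : Fin 4 → Fin 4,
      cf ((([0, 1, 2, 3, 4, 5, 6, 7] : List ℕ).map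
        (xOf (fun _ => (1 : Gr 4)) fun k : Fin 4 => ba {r k})).prod) •
        evalS (xOf a0 fun k : Fin 4 => a (r k)) betaT =
      c4 (r 0) (r 1) (r 2) (r 3) • cm e (gv z (a ∘ r)) := by
    intro r
    have h1 : (([0, 1, 2, 3, 4, 5, 6, 7] : List ℕ).map
        (xOf (fun _ => (1 : Gr 4)) fun k : Fin 4 => ba {r k})).prod =
        ba {r 0} * (ba {r 1} * (ba {r 2} * ba {r 3})) := by
      simp [xOf]
    have h2 : evalS (xOf a0 fun k : Fin 4 => a (r k)) betaT = cm e (gv z (a ∘ r)) := by
      rw [betaT, eval_adOp _ _ _ (by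
        intro t ht
        simp only [gB, List.mem_singleton] at ht
        exact ⟨_, _, by rw [ht]⟩)]
      simp [gB, evalS, RT.eval, Tr.eval, xOf, ha0, gv]
    rw [h1, h2]
    rfl
  rw [Finset.sum_congr rfl fun r _ => hterm r] at hsum
  -- reindexing by the exchange of pairs
  have hsum2 : ∑ r : Fin 4 → Fin 4, c4 (r 0) (r 1) (r 2) (r 3) • cm e (gv z (a ∘ r ∘ tau)) = 0 := by
    rw [← hsum]
    refine Fintype.sum_equiv (Equiv.arrowCongr tau.symm (Equiv.refl _)) _ _ fun r => ?_
    have h1 : (Equiv.arrowCongr tau.symm (Equiv.refl (Fin 4))) r = r ∘ tau := rfl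
    rw [h1]
    have h2 : c4 ((r ∘ tau) 0) ((r ∘ tau) 1) ((r ∘ tau) 2) ((r ∘ tau) 3) =
        c4 (r 0) (r 1) (r 2) (r 3) := c4_swap (r 0) (r 1) (r 2) (r 3)
    rw [h2]
  have h3 : ∑ r : Fin 4 → Fin 4, c4 (r 0) (r 1) (r 2) (r 3) • (2 : ℤ) • bA z e (a ∘ r) = 0 := by
    have h4 := congrArg₂ (· + ·) hsum hsum2
    simp only [add_zero] at h4
    rw [← Finset.sum_add_distrib] at h4
    rw [← h4]
    refine Finset.sum_congr rfl fun r _ => ?_
    rw [← smul_add, ← cm_add2]
    have h5 : gv z (a ∘ r) + gv z (a ∘ r ∘ tau) = (2 : ℤ) •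
        bt z ((a ∘ r) 0) ((a ∘ r) 1) ((a ∘ r) 2) ((a ∘ r) 3) := gv_pair z (a ∘ r)
    rw [h5, cm_zsmul2]
    rfl
  have h6 : ∑ r : Fin 4 → Fin 4, c4 (r 0) (r 1) (r 2) (r 3) • (2 : ℤ) • bA z e (a ∘ r) =
      (48 : ℤ) • bA z e a := by
    have h7 : ∀ r : Fin 4 → Fin 4, c4 (r 0) (r 1) (r 2) (r 3) • (2 : ℤ) • bA z e (a ∘ r) =
        (2 * c4 (r 0) (r 1) (r 2) (r 3) ^ 2) • bA z e a := by
      intro r
      rw [smul_comm, c4_bA, smul_smul]
    rw [Finset.sum_congr rfl fun r _ => h7 r, ← Finset.sum_smul, ← Finset.mul_sum, c4_sum]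
    norm_num
  rw [h6] at h3
  exact h3

end H8Alt.Super.G
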