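import Pool.Agent.H76.Alt.Transfer
import Mathlib.LinearAlgebra.Multilinear.Basic

/-!
# Extraction of ordinary identities from super identities (E1, E2)
-/

namespace H8Alt.Super.G

open H8Alt.Super

section General

variable {S : Type*} [AddCommGroup S] (M : Sem S)

/-- letters `3, ..., 3 + m - 1` are `v`, the others are `x0` -/
def xOf {S : Type*} (x0 : ℕ → S) {m : ℕ} (v : Fin m → S) : ℕ → S :=
  fun i => if h : 3 ≤ i ∧ i < 3 + m then v ⟨i - 3, by omega⟩ else x0 i

theorem xOf_update {S : Type*} (x0 : ℕ → S) {m : ℕ} [DecidableEq (Fin m)] (v : Fin m → S)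
    (k : Fin m) (y : S) :
    xOf x0 (Function.update v k y) = Function.update (xOf x0 v) (3 + k) y := by
  ext i
  unfold xOf
  by_cases h : 3 ≤ i ∧ i < 3 + m
  · rw [dif_pos h]
    by_cases hk : i = 3 + k
    · subst hk
      have : (⟨3 + (k : ℕ) - 3, by omega⟩ : Fin m) = k := by
        ext; simp
      rw [this]
      simp
    · have hne : (⟨i - 3, by omega⟩ : Fin m) ≠ k := by
        intro h1
        apply hk
        have := congrArg Fin.val h1
        simp at this
        omega
      rw [Function.update_of_ne hne, Function.update_of_ne hk, dif_pos h]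
  · rw [dif_neg h]
    have hk : i ≠ 3 + k := by
      have := k.2
      omega
    rw [Function.update_of_ne hk, dif_neg h]

/-- the value as a multilinear function of the letters `3, ..., 3 + m - 1` -/
def mlin (p : ℕ → Bool) (x0 : ℕ → S) {m : ℕ} {s : List (ℤ × RT)}
    (h : ∀ k : Fin m, ∀ t ∈ s, t.2.leaves.count (3 + (k : ℕ)) = 1) :
    MultilinearMap ℤ (fun _ : Fin m => S) S where
  toFun v := M.evS p (xOf x0 v) s
  map_update_add' := by
    intro _ v k a b
    rw [xOf_update, xOf_update, xOf_update]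
    exact evS_add M p a b s (h k)
  map_update_smul' := by
    intro _ v k c a
    rw [xOf_update, xOf_update]
    exact map_zsmul (evHom M p (xOf x0 v) (h k)) c a

theorem mlin_apply (p : ℕ → Bool) (x0 : ℕ → S) {m : ℕ} {s : List (ℤ × RT)}
    (h : ∀ k : Fin m, ∀ t ∈ s, t.2.leaves.count (3 + (k : ℕ)) = 1) (v : Fin m → S) :
    mlin M p x0 h v = M.evS p (xOf x0 v) s := rfl

end General

variable {n : ℕ} {A : Type*} [NonUnitalNonAssocRing A] [IsAlternative A]

/-- coefficient at the full set -/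
def cf (g : Gr n) : ℤ := if g.s = Finset.univ then g.c else 0

omit [IsAlternative A] in
theorem pur_univ (g : Gr n) (a : A) : pur g a Finset.univ = cf g • a := by
  rw [pur_apply, cf]
  by_cases h : g.s = Finset.univ
  · rw [if_pos h.symm, if_pos h]
  · rw [if_neg fun h1 => h h1.symm, if_neg h, zero_smul]

/-- General extraction. -/
theorem extract {m : ℕ} {ι : Type} [Fintype ι] [DecidableEq ι] (p : ℕ → Bool) {L : List ℕ}
    (hL : L.Nodup) {s : List (ℤ × RT)} (hM : Multi L s) (h3 : ∀ k : Fin m, 3 + (k : ℕ) ∈ L)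
    (g0 : ℕ → Gr n) (a0 : ℕ → A) (g : Fin m → ι → Gr n) (a : Fin m → ι → A)
    (hg0 : ∀ i ∈ L, ¬ (3 ≤ i ∧ i < 3 + m) → par (g0 i).s = p i)
    (hg : ∀ k j, par (g k j).s = p (3 + k))
    (h : (semA A n).evS p (xOf (fun i => pur (g0 i) (a0 i)) fun k => ∑ j, pur (g k j) (a k j)) s
      = 0) :
    ∑ r : Fin m → ι, cf ((L.map (xOf g0 fun k => g k (r k))).prod) •
      evalS (xOf a0 fun k => a k (r k)) s = 0 := by
  have hc : ∀ k : Fin m, ∀ t ∈ s, t.2.leaves.count (3 + (k : ℕ)) = 1 := fun k =>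
    count_leaves hL hM (h3 k)
  have h1 := (mlin (semA A n) p (fun i => pur (g0 i) (a0 i)) hc).map_sum
    (fun k j => pur (g k j) (a k j))
  rw [mlin_apply, h] at h1
  have h2 := congrFun h1 Finset.univ
  rw [Finset.sum_apply] at h2
  rw [Pi.zero_apply] at h2
  rw [h2]
  refine Finset.sum_congr rfl fun r _ => ?_
  rw [mlin_apply]
  have h4 : xOf (fun i => pur (g0 i) (a0 i)) (fun k => pur (g k (r k)) (a k (r k))) =
      fun i => pur (xOf g0 (fun k => g k (r k)) i) (xOf a0 (fun k => a k (r k)) i) := by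
    ext1 i
    unfold xOf
    by_cases hi : 3 ≤ i ∧ i < 3 + m
    · simp [hi]
    · simp [hi]
  rw [h4, evS_pur p _ _ hM, pur_univ]
  intro i hi
  unfold xOf
  by_cases hi' : 3 ≤ i ∧ i < 3 + m
  · rw [dif_pos hi']
    have := hg ⟨i - 3, by omega⟩ (r ⟨i - 3, by omega⟩)
    simp only at this
    rw [this]
    congr 1
    omega
  · rw [dif_neg hi']
    exact hg0 i hi hi'

end H8Alt.Super.G
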