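import Pool.Agent.H8.Alt.Super.Syntax
import Mathlib.Algebra.BigOperators.Pi
import Mathlib.Algebra.Group.Hom.Basic
import Mathlib.Data.Fintype.Powerset
import Mathlib.Data.Fintype.BigOperators

/-!
# Grassmann coefficients

Signed subsets of `Fin n` (a monoid with the Grassmann multiplication) and the structure `semA`
on the functions `Finset (Fin n) → A`.
-/

namespace H8Alt.Super.G

variable {n : ℕ}

/-- number of inversions -/
def inv (T U : Finset (Fin n)) : ℕ := ∑ t ∈ T, ∑ u ∈ U, if u < t then 1 else 0

/-- structure constants of the Grassmann algebra -/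
def sig (T U : Finset (Fin n)) : ℤ := if Disjoint T U then (-1) ^ inv T U else 0

theorem inv_union_left {T U : Finset (Fin n)} (h : Disjoint T U) (V : Finset (Fin n)) :
    inv (T ∪ U) V = inv T V + inv U V := by
  unfold inv
  rw [Finset.sum_union h]

theorem inv_union_right {U V : Finset (Fin n)} (h : Disjoint U V) (T : Finset (Fin n)) :
    inv T (U ∪ V) = inv T U + inv T V := by
  unfold inv
  rw [← Finset.sum_add_distrib]
  exact Finset.sum_congr rfl fun t _ => Finset.sum_union h

theorem inv_add_inv {T U : Finset (Fin n)} (h : Disjoint T U) :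
    inv T U + inv U T = T.card * U.card := by
  unfold inv
  rw [Finset.sum_comm (s := U) (t := T), ← Finset.sum_add_distrib]
  have h1 : ∀ t ∈ T, ((∑ u ∈ U, if u < t then 1 else 0) + ∑ u ∈ U, if t < u then 1 else 0) =
      U.card := by
    intro t ht
    rw [← Finset.sum_add_distrib, Finset.card_eq_sum_ones]
    refine Finset.sum_congr rfl fun u hu => ?_
    have hne : t ≠ u := by
      rintro rfl
      exact Finset.disjoint_left.1 h ht hu
    rcases lt_or_gt_of_ne hne with h2 | h2
    · simp [h2, not_lt_of_gt h2]
    · simp [h2, not_lt_of_gt h2]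
  rw [Finset.sum_congr rfl h1]
  simp

theorem sig_cocycle (T U V : Finset (Fin n)) :
    sig T U * sig (T ∪ U) V = sig U V * sig T (U ∪ V) := by
  unfold sig
  by_cases h1 : Disjoint T U
  · by_cases h2 : Disjoint T V
    · by_cases h3 : Disjoint U V
      · have h4 : Disjoint (T ∪ U) V := Finset.disjoint_union_left.2 ⟨h2, h3⟩
        have h5 : Disjoint T (U ∪ V) := Finset.disjoint_union_right.2 ⟨h1, h2⟩
        rw [if_pos h1, if_pos h3, if_pos h4, if_pos h5, inv_union_left h1, inv_union_right h3]
        ring
      · simp [h1, h3, Finset.disjoint_union_left]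
    · simp [h1, h2, Finset.disjoint_union_left, Finset.disjoint_union_right]
  · simp [h1, Finset.disjoint_union_right]

/-- parity of the cardinality -/
def par (T : Finset (Fin n)) : Bool := decide (T.card % 2 = 1)

theorem par_union {T U : Finset (Fin n)} (h : Disjoint T U) :
    par (T ∪ U) = xor (par T) (par U) := by
  unfold par
  rw [Finset.card_union_of_disjoint h]
  rcases Nat.mod_two_eq_zero_or_one T.card with h1 | h1 <;>
    rcases Nat.mod_two_eq_zero_or_one U.card with h2 | h2 <;>
    simp [Nat.add_mod, h1, h2]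

/-- the sign of a pair of parities -/
def sg (b : Bool) : ℤ := if b then -1 else 1

theorem sg_mul_self (b : Bool) : sg b * sg b = 1 := by cases b <;> rfl
theorem sg_xor (a b : Bool) : sg (xor a b) = sg a * sg b := by cases a <;> cases b <;> rfl

theorem sig_comm (T U : Finset (Fin n)) : sig U T = sg (par T && par U) * sig T U := by
  unfold sig
  by_cases h : Disjoint T U
  · rw [if_pos h, if_pos h.symm]
    have h1 := inv_add_inv h
    have h2 : (-1 : ℤ) ^ inv U T = (-1) ^ (T.card * U.card) * (-1) ^ inv T U := by
      rw [← h1, ← pow_add]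
      have : inv T U + inv U T + inv T U = inv U T + 2 * inv T U := by ring
      rw [this, pow_add, pow_mul]
      simp
    rw [h2]
    congr 1
    unfold par sg
    rcases Nat.mod_two_eq_zero_or_one T.card with h3 | h3
    · have : Even (T.card * U.card) := (Nat.even_iff.2 h3).mul_right _
      rw [this.neg_one_pow]
      simp [h3]
    · rcases Nat.mod_two_eq_zero_or_one U.card with h4 | h4
      · have : Even (T.card * U.card) := (Nat.even_iff.2 h4).mul_left _
        rw [this.neg_one_pow]
        simp [h4]
      · have : Odd (T.card * U.card) := (Nat.odd_iff.2 h3).mul (Nat.odd_iff.2 h4)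
        rw [this.neg_one_pow]
        simp [h3, h4]
  · have h' : ¬ Disjoint U T := fun h2 => h h2.symm
    simp [h, h']

/-- signed subsets of `Fin n` -/
@[ext]
structure Gr (n : ℕ) where
  c : ℤ
  s : Finset (Fin n)

instance : Monoid (Gr n) where
  mul g h := ⟨g.c * h.c * sig g.s h.s, g.s ∪ h.s⟩
  one := ⟨1, ∅⟩
  mul_assoc g h k := by
    apply Gr.ext
    · change g.c * h.c * sig g.s h.s * k.c * sig (g.s ∪ h.s) k.s =
        g.c * (h.c * k.c * sig h.s k.s) * sig g.s (h.s ∪ k.s)
      have := sig_cocycle g.s h.s k.s
      linear_combination g.c * h.c * k.c * this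
    · exact Finset.union_assoc _ _ _
  one_mul g := by
    apply Gr.ext
    · change 1 * g.c * sig ∅ g.s = g.c
      simp [sig, inv]
    · exact Finset.empty_union _
  mul_one g := by
    apply Gr.ext
    · change g.c * 1 * sig g.s ∅ = g.c
      simp [sig, inv]
    · exact Finset.union_empty _

theorem mul_c (g h : Gr n) : (g * h).c = g.c * h.c * sig g.s h.s := rfl
theorem mul_s (g h : Gr n) : (g * h).s = g.s ∪ h.s := rfl
theorem one_c : (1 : Gr n).c = 1 := rfl
theorem one_s : (1 : Gr n).s = ∅ := rfl

/-- scalar multiple -/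
def sm (k : ℤ) (g : Gr n) : Gr n := ⟨k * g.c, g.s⟩

theorem sm_mul (k : ℤ) (g h : Gr n) : sm k g * h = sm k (g * h) := by
  apply Gr.ext
  · simp only [mul_c, sm]; ring
  · rfl

theorem mul_sm (k : ℤ) (g h : Gr n) : g * sm k h = sm k (g * h) := by
  apply Gr.ext
  · simp only [mul_c, sm]; ring
  · rfl

theorem sm_sm (k l : ℤ) (g : Gr n) : sm k (sm l g) = sm (k * l) g := by
  apply Gr.ext
  · simp only [sm]; ring
  · rfl

theorem sm_one (g : Gr n) : sm 1 g = g := by
  apply Gr.ext
  · simp [sm]
  · rfl

theorem gr_comm (g h : Gr n) : h * g = sm (sg (par g.s && par h.s)) (g * h) := by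
  apply Gr.ext
  · simp only [mul_c, sm]
    rw [sig_comm g.s h.s]
    ring
  · exact Finset.union_comm _ _

/-- insertion and Koszul signs -/
theorem ins_prod (p : ℕ → Bool) (g : ℕ → Gr n) (i : ℕ) (L : List ℕ)
    (hi : par (g i).s = p i) (hL : ∀ j ∈ L, par (g j).s = p j) :
    g i * (L.map g).prod = sm (sg (ins p i L).1) ((ins p i L).2.map g).prod := by
  induction L with
  | nil => simp [ins, sg, sm_one]
  | cons j L ih =>
    unfold ins
    by_cases h : i ≤ j
    · simp [h, sg, sm_one]
    · simp only [if_neg h, List.map_cons, List.prod_cons]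
      have h1 := ih fun k hk => hL k (List.mem_cons_of_mem _ hk)
      have h2 := gr_comm (g j) (g i)
      rw [hi, hL j List.mem_cons_self] at h2
      rw [← mul_assoc, h2, sm_mul, mul_assoc, h1, mul_sm, sm_sm, sg_xor, Bool.and_comm]

theorem mem_ins (p : ℕ → Bool) (i k : ℕ) (L : List ℕ) : k ∈ (ins p i L).2 ↔ k = i ∨ k ∈ L := by
  induction L with
  | nil => simp [ins]
  | cons j L ih =>
    unfold ins
    by_cases h : i ≤ j
    · simp [h]
    · simp only [if_neg h, List.mem_cons, ih]
      tauto

theorem mem_srt (p : ℕ → Bool) (k : ℕ) (L : List ℕ) : k ∈ (srt p L).2 ↔ k ∈ L := by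
  induction L with
  | nil => simp [srt]
  | cons j L ih => simp [srt, mem_ins, ih]

theorem srt_prod (p : ℕ → Bool) (g : ℕ → Gr n) (L : List ℕ) (hL : ∀ j ∈ L, par (g j).s = p j) :
    (L.map g).prod = sm (sg (srt p L).1) ((srt p L).2.map g).prod := by
  induction L with
  | nil => simp [srt, sg, sm_one]
  | cons i L ih =>
    have h1 := ih fun k hk => hL k (List.mem_cons_of_mem _ hk)
    have h2 := ins_prod p g i (srt p L).2 (hL i List.mem_cons_self)
      fun j hj => hL j (List.mem_cons_of_mem _ ((mem_srt p j L).1 hj))
    simp only [srt, List.map_cons, List.prod_cons]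
    rw [h1, mul_sm, h2, sm_sm, sg_xor]

/-- the sorted list does not depend on the parities -/
theorem ins_snd (p q : ℕ → Bool) (i : ℕ) (L : List ℕ) : (ins p i L).2 = (ins q i L).2 := by
  induction L with
  | nil => rfl
  | cons j L ih =>
    unfold ins
    by_cases h : i ≤ j
    · simp [h]
    · simp [h, ih]

theorem srt_snd (p q : ℕ → Bool) (L : List ℕ) : (srt p L).2 = (srt q L).2 := by
  induction L with
  | nil => rfl
  | cons j L ih => simp only [srt]; rw [ih, ins_snd p q]

theorem count_ins (p : ℕ → Bool) (i k : ℕ) (L : List ℕ) :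
    (ins p i L).2.count k = (i :: L).count k := by
  induction L with
  | nil => rfl
  | cons j L ih =>
    unfold ins
    by_cases h : i ≤ j
    · simp [h]
    · simp only [if_neg h]
      rw [List.count_cons, ih]
      simp only [List.count_cons]
      ring

theorem count_srt (p : ℕ → Bool) (k : ℕ) (L : List ℕ) : (srt p L).2.count k = L.count k := by
  induction L with
  | nil => rfl
  | cons j L ih =>
    simp only [srt]
    rw [count_ins, List.count_cons, List.count_cons, ih]

end H8Alt.Super.G
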