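import Pool.Agent.H76.Alt.Gr
import Mathlib.Algebra.Group.Submonoid.BigOperators

/-!
# The super structure with Grassmann coefficients (T1)
-/

namespace H8Alt.Super.G

variable {n : ℕ} {A : Type*} [NonUnitalNonAssocRing A]

/-- functions on subsets: `A ⊗ Λ_n` -/
abbrev Fn (n : ℕ) (A : Type*) : Type _ := Finset (Fin n) → A

/-- pure tensors -/
def pur (g : Gr n) (a : A) : Fn n A := g.c • Pi.single g.s a

@[simp] theorem pur_zero (g : Gr n) : pur g (0 : A) = 0 := by simp [pur]

theorem pur_add (g : Gr n) (a b : A) : pur g (a + b) = pur g a + pur g b := by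
  simp [pur, Pi.single_add]

theorem pur_neg (g : Gr n) (a : A) : pur g (-a) = - pur g a := by
  simp [pur, Pi.single_neg]

theorem pur_smul (g : Gr n) (k : ℤ) (a : A) : pur g (k • a) = k • pur g a := by
  rw [pur, pur, smul_comm]
  congr 1
  ext T
  by_cases h : T = g.s
  · subst h; simp
  · simp [h]

theorem pur_sm (k : ℤ) (g : Gr n) (a : A) : pur (sm k g) a = k • pur g a := by
  simp [pur, sm, mul_smul]

theorem pur_apply (g : Gr n) (a : A) (T : Finset (Fin n)) :
    pur g a T = if T = g.s then g.c • a else 0 := by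
  by_cases h : T = g.s
  · subst h; simp [pur]
  · simp [pur, h]

/-- a basis element -/
def ba (T : Finset (Fin n)) : Gr n := ⟨1, T⟩

theorem decomp (f : Fn n A) : f = ∑ T, pur (ba T) (f T) := by
  ext W
  simp [Finset.sum_apply, pur_apply, ba]

/-- homogeneous elements -/
def HH (n : ℕ) (A : Type*) [NonUnitalNonAssocRing A] (p : Bool) : AddSubgroup (Fn n A) where
  carrier := {f | ∀ T, par T ≠ p → f T = 0}
  add_mem' := by
    intro f g hf hg T hT
    rw [Pi.add_apply, hf T hT, hg T hT, add_zero]
  zero_mem' := fun T _ => rfl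
  neg_mem' := by
    intro f hf T hT
    rw [Pi.neg_apply, hf T hT, neg_zero]

theorem pur_mem {g : Gr n} {p : Bool} (h : par g.s = p) (a : A) : pur g a ∈ HH n A p := by
  intro T hT
  rw [pur_apply, if_neg]
  rintro rfl
  exact hT h

theorem pur_mul_mem {T U : Finset (Fin n)} {p q : Bool} (h1 : par T = p) (h2 : par U = q) (a : A) :
    pur (ba T * ba U) a ∈ HH n A (xor p q) := by
  by_cases h : Disjoint T U
  · apply pur_mem
    rw [mul_s]
    change par (T ∪ U) = _
    rw [par_union h, h1, h2]
  · have : pur (ba T * ba U) a = 0 := by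
      rw [pur, mul_c]
      change (1 * 1 * sig T U : ℤ) • _ = _
      rw [sig, if_neg h]
      simp
    rw [this]
    exact AddSubgroup.zero_mem _

theorem pur_mul3_mem {T U V : Finset (Fin n)} {p q r : Bool} (h1 : par T = p) (h2 : par U = q)
    (h3 : par V = r) (a : A) : pur (ba T * ba U * ba V) a ∈ HH n A (xor p (xor q r)) := by
  by_cases h : Disjoint T U
  · by_cases h' : Disjoint (T ∪ U) V
    · apply pur_mem
      rw [mul_s, mul_s]
      change par (T ∪ U ∪ V) = _
      rw [par_union h', par_union h, h1, h2, h3, Bool.xor_assoc]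
    · have : pur (ba T * ba U * ba V) a = 0 := by
        rw [pur, mul_c, mul_s]
        change (_ * 1 * sig (T ∪ U) V : ℤ) • _ = _
        rw [sig, if_neg h']
        simp
      rw [this]
      exact AddSubgroup.zero_mem _
  · have : pur (ba T * ba U * ba V) a = 0 := by
      rw [pur, mul_c, mul_c]
      change ((1 * 1 * sig T U) * 1 * _ : ℤ) • _ = _
      rw [sig, if_neg h]
      simp
    rw [this]
    exact AddSubgroup.zero_mem _

/-- bilinear extension -/
def ext2 (op : A →+ A →+ A) : Fn n A →+ Fn n A →+ Fn n A :=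
  AddMonoidHom.mk' (fun f => AddMonoidHom.mk' (fun g =>
      ∑ T, ∑ U, pur (ba T * ba U) (op (f T) (g U))) (by
        intro g g'
        simp only [Pi.add_apply, map_add, pur_add, Finset.sum_add_distrib])) (by
    intro f f'
    refine AddMonoidHom.ext fun g => ?_
    simp only [AddMonoidHom.mk'_apply, AddMonoidHom.add_apply, Pi.add_apply, map_add, pur_add,
      Finset.sum_add_distrib])

theorem ext2_apply (op : A →+ A →+ A) (f g : Fn n A) :
    ext2 op f g = ∑ T, ∑ U, pur (ba T * ba U) (op (f T) (g U)) := rfl

/-- trilinear extension -/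
def ext3 (op : A →+ A →+ A →+ A) : Fn n A →+ Fn n A →+ Fn n A →+ Fn n A :=
  AddMonoidHom.mk' (fun f => AddMonoidHom.mk' (fun g => AddMonoidHom.mk' (fun h =>
      ∑ T, ∑ U, ∑ V, pur (ba T * ba U * ba V) (op (f T) (g U) (h V))) (by
        intro h h'
        simp only [Pi.add_apply, map_add, pur_add, Finset.sum_add_distrib])) (by
      intro g g'
      refine AddMonoidHom.ext fun h => ?_
      simp only [AddMonoidHom.mk'_apply, AddMonoidHom.add_apply, Pi.add_apply, map_add, pur_add,
        Finset.sum_add_distrib])) (by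
    intro f f'
    refine AddMonoidHom.ext fun g => AddMonoidHom.ext fun h => ?_
    simp only [AddMonoidHom.mk'_apply, AddMonoidHom.add_apply, Pi.add_apply, map_add, pur_add,
      Finset.sum_add_distrib])

theorem ext3_apply (op : A →+ A →+ A →+ A) (f g h : Fn n A) :
    ext3 op f g h = ∑ T, ∑ U, ∑ V, pur (ba T * ba U * ba V) (op (f T) (g U) (h V)) := rfl

theorem hom_smul {B C : Type*} [AddCommGroup B] [AddCommGroup C] (f : B →+ C) (k : ℤ) (b : B) :
    f (k • b) = k • f b := map_zsmul f k b

theorem ext2_pur (op : A →+ A →+ A) (g h : Gr n) (a b : A) :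
    ext2 op (pur g a) (pur h b) = pur (g * h) (op a b) := by
  rw [ext2_apply, Finset.sum_eq_single g.s]
  · rw [Finset.sum_eq_single h.s]
    · rw [pur_apply, if_pos rfl, pur_apply, if_pos rfl, map_zsmul, map_zsmul, pur_smul]
      rw [AddMonoidHom.smul_apply, pur_smul]
      simp only [pur, mul_c, mul_s, ba]
      rw [smul_smul, smul_smul]
      congr 1
      ring
    · intro U _ hU
      rw [pur_apply (T := U), if_neg hU]
      simp
    · simp
  · intro T _ hT
    apply Finset.sum_eq_zero
    intro U _
    rw [pur_apply (T := T), if_neg hT]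
    simp
  · simp

theorem ext3_pur (op : A →+ A →+ A →+ A) (g h k : Gr n) (a b c : A) :
    ext3 op (pur g a) (pur h b) (pur k c) = pur (g * h * k) (op a b c) := by
  rw [ext3_apply, Finset.sum_eq_single g.s]
  · rw [Finset.sum_eq_single h.s]
    · rw [Finset.sum_eq_single k.s]
      · rw [pur_apply, if_pos rfl, pur_apply, if_pos rfl, pur_apply, if_pos rfl]
        simp only [map_zsmul, pur_smul, AddMonoidHom.smul_apply]
        simp only [pur, mul_c, mul_s, ba]
        rw [smul_smul, smul_smul, smul_smul]
        congr 1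
        ring
      · intro V _ hV
        rw [pur_apply (T := V), if_neg hV]
        simp
      · simp
    · intro U _ hU
      apply Finset.sum_eq_zero
      intro V _
      rw [pur_apply (T := U), if_neg hU]
      simp
    · simp
  · intro T _ hT
    apply Finset.sum_eq_zero
    intro U _
    apply Finset.sum_eq_zero
    intro V _
    rw [pur_apply (T := T), if_neg hT]
    simp
  · simp

/-- the commutator as a biadditive map -/
def cmH (A : Type*) [NonUnitalNonAssocRing A] : A →+ A →+ A :=
  AddMonoidHom.mk' (fun a => AddMonoidHom.mk' (fun b => cm a b) (fun b c => cm_add2 a b c))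
    (fun a b => by ext1 c; exact cm_add1 a b c)

/-- the Jordan product as a biadditive map -/
def jdH (A : Type*) [NonUnitalNonAssocRing A] : A →+ A →+ A :=
  AddMonoidHom.mk' (fun a => AddMonoidHom.mk' (fun b => a * b + b * a) (fun b c => by
    simp only [mul_add, add_mul]; abel))
    (fun a b => by
      ext1 c
      simp only [AddMonoidHom.mk'_apply, AddMonoidHom.add_apply, mul_add, add_mul]; abel)

/-- the associator as a triadditive map -/
def asH (A : Type*) [NonUnitalNonAssocRing A] : A →+ A →+ A →+ A :=
  AddMonoidHom.mk' (fun a => AddMonoidHom.mk' (fun b => AddMonoidHom.mk' (fun c => as a b c)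
      (fun c d => as_add3 a b c d)) (fun b c => by ext1 d; exact as_add2 a b c d))
    (fun a b => by ext1 c; ext1 d; exact as_add1 a b c d)

theorem cmH_apply (a b : A) : cmH A a b = cm a b := rfl
theorem jdH_apply (a b : A) : jdH A a b = a * b + b * a := rfl
theorem asH_apply (a b c : A) : asH A a b c = as a b c := rfl

theorem ext2_mem (op : A →+ A →+ A) {p q : Bool} {u v : Fn n A} (hu : u ∈ HH n A p)
    (hv : v ∈ HH n A q) : ext2 op u v ∈ HH n A (xor p q) := by
  rw [ext2_apply]
  refine sum_mem fun T _ => sum_mem fun U _ => ?_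
  by_cases h1 : par T = p
  · by_cases h2 : par U = q
    · exact pur_mul_mem h1 h2 _
    · rw [hv U h2, map_zero, pur_zero]
      exact AddSubgroup.zero_mem _
  · rw [hu T h1, map_zero, AddMonoidHom.zero_apply, pur_zero]
    exact AddSubgroup.zero_mem _

theorem ext3_mem (op : A →+ A →+ A →+ A) {p q r : Bool} {u v w : Fn n A} (hu : u ∈ HH n A p)
    (hv : v ∈ HH n A q) (hw : w ∈ HH n A r) : ext3 op u v w ∈ HH n A (xor p (xor q r)) := by
  rw [ext3_apply]
  refine sum_mem fun T _ => sum_mem fun U _ =>
    sum_mem fun V _ => ?_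
  by_cases h1 : par T = p
  · by_cases h2 : par U = q
    · by_cases h3 : par V = r
      · exact pur_mul3_mem h1 h2 h3 _
      · rw [hw V h3, map_zero, pur_zero]
        exact AddSubgroup.zero_mem _
    · rw [hv U h2, map_zero, AddMonoidHom.zero_apply, pur_zero]
      exact AddSubgroup.zero_mem _
  · rw [hu T h1, map_zero, AddMonoidHom.zero_apply, AddMonoidHom.zero_apply, pur_zero]
    exact AddSubgroup.zero_mem _

/-- (anti)symmetry of the extensions -/
theorem ext2_swap (op : A →+ A →+ A) (b : Bool) (hop : ∀ a c, op c a = sg b • op a c)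
    {p q : Bool} {u v : Fn n A} (hu : u ∈ HH n A p) (hv : v ∈ HH n A q) :
    ext2 op v u = sg (xor (p && q) b) • ext2 op u v := by
  rw [ext2_apply, ext2_apply, Finset.sum_comm, Finset.smul_sum]
  refine Finset.sum_congr rfl fun T _ => ?_
  rw [Finset.smul_sum]
  refine Finset.sum_congr rfl fun U _ => ?_
  by_cases h1 : par T = p
  · by_cases h2 : par U = q
    · have h3 := gr_comm (ba T) (ba U)
      change _ = sm (sg (par T && par U)) _ at h3
      rw [h3, h1, h2, pur_sm, hop, pur_smul, smul_smul, sg_xor]
    · rw [hv U h2]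
      simp
  · rw [hu T h1]
    simp

theorem ext3_swap12 (op : A →+ A →+ A →+ A) (hop : ∀ a b c, op b a c = -op a b c)
    {p q : Bool} {u v : Fn n A} (w : Fn n A) (hu : u ∈ HH n A p) (hv : v ∈ HH n A q) :
    ext3 op v u w = sg (!(p && q)) • ext3 op u v w := by
  rw [ext3_apply, ext3_apply, Finset.sum_comm, Finset.smul_sum]
  refine Finset.sum_congr rfl fun T _ => ?_
  rw [Finset.smul_sum]
  refine Finset.sum_congr rfl fun U _ => ?_
  rw [Finset.smul_sum]
  refine Finset.sum_congr rfl fun V _ => ?_
  by_cases h1 : par T = p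
  · by_cases h2 : par U = q
    · have h3 := gr_comm (ba T) (ba U)
      change _ = sm (sg (par T && par U)) _ at h3
      rw [h3, h1, h2, sm_mul, pur_sm, hop, pur_neg, smul_neg, ← neg_smul]
      congr 1
      cases p <;> cases q <;> simp [sg]
    · rw [hv U h2]
      simp
  · rw [hu T h1]
    simp

theorem ext3_swap23 (op : A →+ A →+ A →+ A) (hop : ∀ a b c, op c b a = -op c a b)
    {p q : Bool} {u v : Fn n A} (w : Fn n A) (hu : u ∈ HH n A p) (hv : v ∈ HH n A q) :
    ext3 op w v u = sg (!(p && q)) • ext3 op w u v := by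
  rw [ext3_apply, ext3_apply, Finset.smul_sum]
  refine Finset.sum_congr rfl fun V _ => ?_
  rw [Finset.sum_comm, Finset.smul_sum]
  refine Finset.sum_congr rfl fun T _ => ?_
  rw [Finset.smul_sum]
  refine Finset.sum_congr rfl fun U _ => ?_
  by_cases h1 : par T = p
  · by_cases h2 : par U = q
    · have h3 := gr_comm (ba T) (ba U)
      change _ = sm (sg (par T && par U)) _ at h3
      rw [mul_assoc, h3, h1, h2, mul_sm, ← mul_assoc, pur_sm, hop, pur_neg, smul_neg, ← neg_smul]
      congr 1
      cases p <;> cases q <;> simp [sg]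
    · rw [hv U h2]
      simp
  · rw [hu T h1]
    simp

/-- (T1) the super structure on `Finset (Fin n) → A` -/
def semA (A : Type*) [NonUnitalNonAssocRing A] [IsAlternative A] (n : ℕ) : Sem (Fn n A) where
  com := ext2 (cmH A)
  ass := ext3 (asH A)
  jor := ext2 (jdH A)
  H := HH n A
  com_mem := fun hu hv => ext2_mem _ hu hv
  ass_mem := fun hu hv hw => ext3_mem _ hu hv hw
  com_swap := by
    intro p q u v hu hv
    rw [ext2_swap (cmH A) true (fun a c => by
      rw [cmH_apply, cmH_apply, cm_swap a c]; simp [sg]) hu hv]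
    congr 1
    cases p <;> cases q <;> simp [sg]
  ass_swap12 := by
    intro p q u v w hu hv
    rw [ext3_swap12 (asH A) (fun a b c => as_swap12 a b c) w hu hv]
    congr 1
    cases p <;> cases q <;> simp [sg]
  ass_swap23 := by
    intro p q u v w hu hv
    rw [ext3_swap23 (asH A) (fun a b c => as_swap23 c a b) w hu hv]
    congr 1
    cases p <;> cases q <;> simp [sg]
  jor_swap := by
    intro p q u v hu hv
    rw [ext2_swap (jdH A) false (fun a c => by
      rw [jdH_apply, jdH_apply, add_comm]; simp [sg]) hu hv]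
    congr 1
    cases p <;> cases q <;> simp [sg]

end H8Alt.Super.G
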