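import Pool.Agent.H76.Alt.SemA
import Mathlib.LinearAlgebra.Multilinear.Basic

/-!
# Transfer of multilinear identities (T2)
-/

namespace H8Alt.Super.G

open H8Alt.Super

section General

variable {S : Type*} [AddCommGroup S] (M : Sem S)

theorem evT_congr {x x' : ℕ → S} (t : Tr) (h : ∀ i ∈ t.leaves, x i = x' i) :
    M.evT x t = M.evT x' t := by
  induction t with
  | l i => exact h i (by simp [Tr.leaves])
  | c s t ihs iht =>
    simp only [Tr.leaves, List.mem_append] at h
    simp only [Sem.evT]
    rw [ihs fun i hi => h i (Or.inl hi), iht fun i hi => h i (Or.inr hi)]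
  | a s t u ihs iht ihu =>
    simp only [Tr.leaves, List.mem_append] at h
    simp only [Sem.evT]
    rw [ihs fun i hi => h i (Or.inl hi), iht fun i hi => h i (Or.inr (Or.inl hi)),
      ihu fun i hi => h i (Or.inr (Or.inr hi))]

theorem evR_congr {x x' : ℕ → S} (t : RT) (h : ∀ i ∈ t.leaves, x i = x' i) :
    M.evR x t = M.evR x' t := by
  cases t with
  | c s t =>
    simp only [RT.leaves, List.mem_append] at h
    simp only [Sem.evR]
    rw [evT_congr M s fun i hi => h i (Or.inl hi), evT_congr M t fun i hi => h i (Or.inr hi)]
  | a s t u =>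
    simp only [RT.leaves, List.mem_append] at h
    simp only [Sem.evR]
    rw [evT_congr M s fun i hi => h i (Or.inl hi), evT_congr M t fun i hi => h i (Or.inr (Or.inl hi)),
      evT_congr M u fun i hi => h i (Or.inr (Or.inr hi))]
  | j s t =>
    simp only [RT.leaves, List.mem_append] at h
    simp only [Sem.evR]
    rw [evT_congr M s fun i hi => h i (Or.inl hi), evT_congr M t fun i hi => h i (Or.inr hi)]

theorem evT_update_zero {x : ℕ → S} {i : ℕ} (y : S) (t : Tr) (h : t.leaves.count i = 0) :
    M.evT (Function.update x i y) t = M.evT x t := by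
  apply evT_congr
  intro j hj
  have : j ≠ i := by
    rintro rfl
    exact List.count_eq_zero.1 h hj
  simp [this]

theorem evT_add {x : ℕ → S} {i : ℕ} (u v : S) (t : Tr) (h : t.leaves.count i = 1) :
    M.evT (Function.update x i (u + v)) t =
      M.evT (Function.update x i u) t + M.evT (Function.update x i v) t := by
  induction t with
  | l k =>
    have hk : k = i := by
      by_contra hne
      simp [Tr.leaves, hne] at h
    subst hk
    simp [Sem.evT]
  | c s t ihs iht =>
    simp only [Tr.leaves, List.count_append] at h
    simp only [Sem.evT]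
    rcases Nat.add_eq_one_iff.1 h with ⟨h1, h2⟩ | ⟨h1, h2⟩
    · rw [iht h2, evT_update_zero M _ s h1, evT_update_zero M _ s h1, evT_update_zero M _ s h1,
        map_add]
    · rw [ihs h1, evT_update_zero M _ t h2, evT_update_zero M _ t h2, evT_update_zero M _ t h2,
        map_add, AddMonoidHom.add_apply]
  | a s t w ihs iht ihw =>
    simp only [Tr.leaves, List.count_append] at h
    simp only [Sem.evT]
    rcases Nat.add_eq_one_iff.1 h with ⟨h1, h2⟩ | ⟨h1, h2⟩
    · rcases Nat.add_eq_one_iff.1 h2 with ⟨h3, h4⟩ | ⟨h3, h4⟩
      · rw [ihw h4, evT_update_zero M _ s h1, evT_update_zero M _ s h1, evT_update_zero M _ s h1,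
          evT_update_zero M _ t h3, evT_update_zero M _ t h3, evT_update_zero M _ t h3, map_add]
      · rw [iht h3, evT_update_zero M _ s h1, evT_update_zero M _ s h1, evT_update_zero M _ s h1,
          evT_update_zero M _ w h4, evT_update_zero M _ w h4, evT_update_zero M _ w h4, map_add,
          AddMonoidHom.add_apply]
    · have h3 : t.leaves.count i = 0 := by omega
      have h4 : w.leaves.count i = 0 := by omega
      rw [ihs h1, evT_update_zero M _ t h3, evT_update_zero M _ t h3, evT_update_zero M _ t h3,
        evT_update_zero M _ w h4, evT_update_zero M _ w h4, evT_update_zero M _ w h4, map_add,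
        AddMonoidHom.add_apply, AddMonoidHom.add_apply]

theorem evR_add {x : ℕ → S} {i : ℕ} (u v : S) (t : RT) (h : t.leaves.count i = 1) :
    M.evR (Function.update x i (u + v)) t =
      M.evR (Function.update x i u) t + M.evR (Function.update x i v) t := by
  cases t with
  | c s t =>
    simp only [RT.leaves, List.count_append] at h
    simp only [Sem.evR]
    rcases Nat.add_eq_one_iff.1 h with ⟨h1, h2⟩ | ⟨h1, h2⟩
    · rw [evT_add M _ _ t h2, evT_update_zero M _ s h1, evT_update_zero M _ s h1,
        evT_update_zero M _ s h1, map_add]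
    · rw [evT_add M _ _ s h1, evT_update_zero M _ t h2, evT_update_zero M _ t h2,
        evT_update_zero M _ t h2, map_add, AddMonoidHom.add_apply]
  | j s t =>
    simp only [RT.leaves, List.count_append] at h
    simp only [Sem.evR]
    rcases Nat.add_eq_one_iff.1 h with ⟨h1, h2⟩ | ⟨h1, h2⟩
    · rw [evT_add M _ _ t h2, evT_update_zero M _ s h1, evT_update_zero M _ s h1,
        evT_update_zero M _ s h1, map_add]
    · rw [evT_add M _ _ s h1, evT_update_zero M _ t h2, evT_update_zero M _ t h2,
        evT_update_zero M _ t h2, map_add, AddMonoidHom.add_apply]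
  | a s t w =>
    simp only [RT.leaves, List.count_append] at h
    simp only [Sem.evR]
    rcases Nat.add_eq_one_iff.1 h with ⟨h1, h2⟩ | ⟨h1, h2⟩
    · rcases Nat.add_eq_one_iff.1 h2 with ⟨h3, h4⟩ | ⟨h3, h4⟩
      · rw [evT_add M _ _ w h4, evT_update_zero M _ s h1, evT_update_zero M _ s h1,
          evT_update_zero M _ s h1, evT_update_zero M _ t h3, evT_update_zero M _ t h3,
          evT_update_zero M _ t h3, map_add]
      · rw [evT_add M _ _ t h3, evT_update_zero M _ s h1, evT_update_zero M _ s h1,
          evT_update_zero M _ s h1, evT_update_zero M _ w h4, evT_update_zero M _ w h4,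
          evT_update_zero M _ w h4, map_add, AddMonoidHom.add_apply]
    · have h3 : t.leaves.count i = 0 := by omega
      have h4 : w.leaves.count i = 0 := by omega
      rw [evT_add M _ _ s h1, evT_update_zero M _ t h3, evT_update_zero M _ t h3,
        evT_update_zero M _ t h3, evT_update_zero M _ w h4, evT_update_zero M _ w h4,
        evT_update_zero M _ w h4, map_add, AddMonoidHom.add_apply, AddMonoidHom.add_apply]

theorem evS_congr (p : ℕ → Bool) {x x' : ℕ → S} (s : List (ℤ × RT))
    (h : ∀ t ∈ s, ∀ i ∈ t.2.leaves, x i = x' i) : M.evS p x s = M.evS p x' s := by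
  induction s with
  | nil => rfl
  | cons t s ih =>
    simp only [Sem.evS]
    rw [evR_congr M t.2 (h t List.mem_cons_self), ih fun t' ht' => h t' (List.mem_cons_of_mem _ ht')]

theorem evS_add (p : ℕ → Bool) {x : ℕ → S} {i : ℕ} (u v : S) (s : List (ℤ × RT))
    (h : ∀ t ∈ s, t.2.leaves.count i = 1) :
    M.evS p (Function.update x i (u + v)) s =
      M.evS p (Function.update x i u) s + M.evS p (Function.update x i v) s := by
  induction s with
  | nil => simp [Sem.evS]
  | cons t s ih =>
    simp only [Sem.evS]
    rw [evR_add M _ _ t.2 (h t List.mem_cons_self), ih fun t' ht' => h t' (List.mem_cons_of_mem _ ht'),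
      smul_add]
    abel

theorem mem_leaves {L : List ℕ} {s : List (ℤ × RT)} (hM : Multi L s) {t : ℤ × RT} (ht : t ∈ s)
    (i : ℕ) : i ∈ t.2.leaves ↔ i ∈ L := by
  rw [← hM t ht, mem_srt]

theorem count_leaves {L : List ℕ} (hL : L.Nodup) {s : List (ℤ × RT)} (hM : Multi L s) {i : ℕ}
    (hi : i ∈ L) : ∀ t ∈ s, t.2.leaves.count i = 1 := by
  intro t ht
  rw [← count_srt (fun _ => false), hM t ht]
  exact List.count_eq_one_of_mem hL hi

/-- the value as an additive function of one letter -/
def evHom (p : ℕ → Bool) (x : ℕ → S) {i : ℕ} {s : List (ℤ × RT)}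
    (h : ∀ t ∈ s, t.2.leaves.count i = 1) : S →+ S :=
  AddMonoidHom.mk' (fun y => M.evS p (Function.update x i y) s)
    (fun u v => evS_add M p u v s h)

theorem evHom_apply (p : ℕ → Bool) (x : ℕ → S) {i : ℕ} {s : List (ℤ × RT)}
    (h : ∀ t ∈ s, t.2.leaves.count i = 1) (y : S) :
    evHom M p x h y = M.evS p (Function.update x i y) s := rfl

end General

variable {n : ℕ} {A : Type*} [NonUnitalNonAssocRing A] [IsAlternative A]

theorem evT_pur (g : ℕ → Gr n) (a : ℕ → A) (t : Tr) :
    (semA A n).evT (fun i => pur (g i) (a i)) t = pur ((t.leaves.map g).prod) (t.eval a) := by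
  induction t with
  | l i => simp [Sem.evT, Tr.leaves, Tr.eval]
  | c s t ihs iht =>
    simp only [Sem.evT, Tr.leaves, Tr.eval, List.map_append, List.prod_append]
    rw [ihs, iht]
    exact ext2_pur _ _ _ _ _
  | a s t u ihs iht ihu =>
    simp only [Sem.evT, Tr.leaves, Tr.eval, List.map_append, List.prod_append]
    rw [ihs, iht, ihu, ← mul_assoc]
    exact ext3_pur _ _ _ _ _ _ _

theorem evR_pur (g : ℕ → Gr n) (a : ℕ → A) (t : RT) :
    (semA A n).evR (fun i => pur (g i) (a i)) t = pur ((t.leaves.map g).prod) (t.eval a) := by
  cases t with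
  | c s t =>
    simp only [Sem.evR, RT.leaves, RT.eval, List.map_append, List.prod_append]
    rw [evT_pur, evT_pur]
    exact ext2_pur _ _ _ _ _
  | j s t =>
    simp only [Sem.evR, RT.leaves, RT.eval, List.map_append, List.prod_append]
    rw [evT_pur, evT_pur]
    exact ext2_pur _ _ _ _ _
  | a s t u =>
    simp only [Sem.evR, RT.leaves, RT.eval, List.map_append, List.prod_append]
    rw [evT_pur, evT_pur, evT_pur, ← mul_assoc]
    exact ext3_pur _ _ _ _ _ _ _

theorem kos_eq (p : ℕ → Bool) (L : List ℕ) : kos p L = sg (srt p L).1 := rfl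

/-- signed value on pure tensors -/
theorem evS_pur (p : ℕ → Bool) (g : ℕ → Gr n) (a : ℕ → A) {L : List ℕ} {s : List (ℤ × RT)}
    (hM : Multi L s) (hg : ∀ i ∈ L, par (g i).s = p i) :
    (semA A n).evS p (fun i => pur (g i) (a i)) s = pur ((L.map g).prod) (evalS a s) := by
  induction s with
  | nil => simp [Sem.evS, evalS]
  | cons t s ih =>
    have hM' : Multi L s := fun t' ht' => hM t' (List.mem_cons_of_mem _ ht')
    simp only [Sem.evS, evalS]
    rw [ih hM', evR_pur, pur_add]
    congr 1
    have h1 : ∀ i ∈ t.2.leaves, par (g i).s = p i := fun i hi =>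
      hg i ((mem_leaves hM List.mem_cons_self i).1 hi)
    have h2 := srt_prod p g t.2.leaves h1
    have h3 : (srt p t.2.leaves).2 = L := by
      rw [srt_snd p (fun _ => false)]
      exact hM t List.mem_cons_self
    rw [h3] at h2
    rw [h2, pur_sm, kos_eq, smul_smul, mul_assoc, sg_mul_self, mul_one, pur_smul]

/-- (T2) multilinear identities of `A` hold in `semA A n` -/
theorem svalid {s : List (ℤ × RT)} (hO : OValid A s) {L : List ℕ} (hM : Multi L s)
    (hL : L.Nodup) : (semA A n).SValid s := by
  intro p x hx
  have key : ∀ K : List ℕ, ∀ x : ℕ → Fn n A, (∀ i, x i ∈ HH n A (p i)) →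
      (∀ i ∈ L, i ∉ K → ∃ (g : Gr n) (a : A), par g.s = p i ∧ x i = pur g a) →
      (semA A n).evS p x s = 0 := by
    intro K
    induction K with
    | nil =>
      intro x _ h
      have h' : ∀ i, ∃ (g : Gr n) (a : A), i ∈ L → par g.s = p i ∧ x i = pur g a := by
        intro i
        by_cases hi : i ∈ L
        · obtain ⟨g, a, h1, h2⟩ := h i hi (by simp)
          exact ⟨g, a, fun _ => ⟨h1, h2⟩⟩
        · exact ⟨1, 0, fun h1 => absurd h1 hi⟩
      choose g a hga using h'
      have h1 : (semA A n).evS p x s = (semA A n).evS p (fun i => pur (g i) (a i)) s := by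
        apply evS_congr
        intro t ht i hi
        exact (hga i ((mem_leaves hM ht i).1 hi)).2
      rw [h1, evS_pur p g a hM fun i hi => (hga i hi).1, hO a, pur_zero]
    | cons k K ih =>
      intro x hx h
      by_cases hk : k ∈ L
      · have hc := count_leaves hL hM hk
        have h1 : (semA A n).evS p x s = evHom (semA A n) p x hc (x k) := by
          rw [evHom_apply, Function.update_eq_self]
        rw [h1, decomp (x k), map_sum]
        apply Finset.sum_eq_zero
        intro T _
        by_cases hT : par T = p k
        · rw [evHom_apply]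
          apply ih
          · intro i
            by_cases hi : i = k
            · subst hi
              rw [Function.update_self]
              exact pur_mem (g := ba T) hT _
            · rw [Function.update_of_ne hi]
              exact hx i
          · intro i hi hiK
            by_cases hik : i = k
            · subst hik
              rw [Function.update_self]
              exact ⟨ba T, _, hT, rfl⟩
            · rw [Function.update_of_ne hik]
              exact h i hi (by simp [hik, hiK])
        · rw [hx k T hT, pur_zero, map_zero]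
      · apply ih x hx
        intro i hi hiK
        apply h i hi
        have : i ≠ k := by
          rintro rfl
          exact hk hi
        simp [this, hiK]
  exact key L x hx fun i hi hiL => absurd hi hiL

end H8Alt.Super.G
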